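import Pool.Agent.Helper52.SZ.Defs
import Pool.Agent.Helper72.SZ.Popular
import Pool.Agent.Helper88.SZ.MDHJ
import Pool.Agent.Helper36.SZ.Ramsey
import Pool.Agent.Helper4.SZ.PartAll
import Pool.Agent.Helper81.SZ.Compl
import Pool.Agent.Helper7.SZ.Small

/-!
Project SZ, module SZ-12: the density decrement for the alphabet Option α.
-/

namespace Pool.Agent.Helper52.SZ

open Combinatorics

theorem core_pow_small {q t : ℝ} (hq0 : 0 ≤ q) (hq : q < 1) (ht : 0 < t) :
    ∃ n : ℕ, ∀ m, n ≤ m → q ^ m ≤ t := by
  obtain ⟨n, hn⟩ := exists_pow_lt_of_lt_one ht hq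
  exact ⟨n, fun m hm => (pow_le_pow_of_le_one hq0 hq.le hm).trans hn.le⟩

theorem core {α : Type} [Finite α] [Nonempty α] (hD : DHJ α) {δ : ℝ} (hδ : 0 < δ)
    (hG : ∀ γ : ℝ, 0 < γ → Good (Option α) (δ + γ)) :
    ∃ ε : ℝ, 0 < ε ∧ Good (Option α) (δ - ε) := by
  classical
  have hk0 : (0 : ℝ) ≤ (Nat.card α : ℝ) := Nat.cast_nonneg _
  set k : ℝ := (Nat.card α : ℝ) with hk
  set K : ℝ := k + 1 with hK
  have hK1 : 1 ≤ K := by linarith
  have hK0 : 0 < K := by linarith
  by_cases hδ1 : 1 < δ
  · refine ⟨(δ - 1) / 2, by linarith, good_of_one_lt (by linarith)⟩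
  push Not at hδ1
  -- the parameters
  obtain ⟨m0, hm0⟩ := hD (δ / 4) (by linarith)
  set θ1 : ℝ := (δ / 4) / K ^ m0 with hθ1
  have hθ1pos : 0 < θ1 := by positivity
  have hθ1le : θ1 ≤ 1 := by
    rw [hθ1, div_le_one (by positivity)]
    have : 1 ≤ K ^ m0 := one_le_pow₀ hK1
    linarith
  set θ : ℝ := θ1 / (2 * K) with hθ
  have hθpos : 0 < θ := by positivity
  have hθle : θ ≤ 1 := by
    rw [hθ, div_le_one (by positivity)]
    linarith
  set γ : ℝ := δ * θ ^ 2 / 64 with hγ
  have hγpos : 0 < γ := by positivity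
  have hγδ : γ ≤ δ / 2 := by
    have h1 : θ ^ 2 ≤ 1 := pow_le_one₀ hθpos.le hθle
    have h2 : δ * θ ^ 2 ≤ δ * 1 := mul_le_mul_of_nonneg_left h1 hδ.le
    rw [hγ]
    linarith
  obtain ⟨n1, hn1⟩ := hG γ hγpos
  set β : ℝ := δ * θ / (4 * K) with hβ
  have hβpos : 0 < β := by positivity
  have hM : MDHJ α := mdhj_of_dhj hD
  obtain ⟨nP, hnP⟩ := part_all hM n1 β hβpos
  obtain ⟨nQ, hnQ⟩ := core_pow_small (q := k / K) (t := δ * θ / 8) (by positivity)
    (by rw [div_lt_one hK0]; linarith) (by positivity)
  set M : ℕ := nP + n1 + nQ with hMdef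
  obtain ⟨m, hm⟩ := ramsey (α := α) m0 M Unit
  have hcardT : (Nat.card (Fin m → Option α) : ℝ) = K ^ m := by
    rw [Nat.card_fun, Nat.card_fin, Finite.card_option]
    push_cast
    rfl
  set ε : ℝ := γ / (2 * K ^ m) with hε
  have hεpos : 0 < ε := by positivity
  obtain ⟨n2, hn2⟩ := hG ε hεpos
  refine ⟨ε, hεpos, m + n2, ?_⟩
  intro ι _ hι A hA
  by_contra hno
  obtain ⟨κ', _, ⟨e⟩, hcard⟩ := exists_split (ι := ι) (n := m) (by omega)
  have hκ' : n2 ≤ Nat.card κ' := by omega
  -- sections
  have hsec_le : ∀ t, dn {v | glue e t v ∈ A} ≤ δ + ε := by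
    intro t
    by_contra hcon
    push Not at hcon
    obtain ⟨l, hl⟩ := hn2 κ' hκ' _ hcon.le
    exact hno ⟨lineR e t l, fun x => by rw [lineR_apply]; exact hl x⟩
  have hsec_ge : ∀ t, δ - γ ≤ dn {v | glue e t v ∈ A} := by
    intro t
    have h1 := av_lower (X := Fin m → Option α) (g := fun t => dn {v | glue e t v ∈ A})
      (a := δ) (b := ε) hεpos.le hsec_le (by rw [dn_glue' e] at hA; exact hA) t
    rw [hcardT] at h1
    have h2 : 2 * ε * K ^ m = γ := by
      rw [hε]
      field_simp
    rw [h2] at h1
    exact h1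
  -- lines in a section over the first block
  have hnoL : ∀ z : κ' → Option α, ¬ ∃ l : Line (Option α) (Fin m), ∀ x, glue e (l x) z ∈ A := by
    rintro z ⟨l, hl⟩
    exact hno ⟨lineL e l z, fun x => by rw [lineL_apply]; exact hl x⟩
  rcases hm (Fin m) (by simp) (fun _ t => θ1 ≤ dn {v | ∀ i, glue e (inc (rep i t)) v ∈ A}) with
    ⟨R, hR⟩ | ⟨-, W, hW⟩
  · -- option (i)
    obtain ⟨l, hl⟩ := popular_line (β := α) (κ := Fin m0) (Z := κ' → Option α) (c := δ / 4)
      (by linarith) (fun B hB => hm0 (Fin m0) (by simp) B hB)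
      (fun w z => glue e (inc (R w)) z ∈ A) (by
        have h1 : av (fun z => dn {w : Fin m0 → α | glue e (inc (R w)) z ∈ A})
            = av (fun w : Fin m0 → α => dn {z | glue e (inc (R w)) z ∈ A}) := by
          simp only [dn]
          rw [av_comm]
          rfl
        rw [h1]
        refine le_av_of_le fun w => ?_
        linarith [hsec_ge (inc (R w))])
    have hs := hR () l.idxFun l.proper
    apply hs
    rw [Nat.card_fin] at hl
    refine hl.trans (le_of_eq ?_)
    congr 1
    ext z
    simp only [Set.mem_ofPred_eq]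
    refine forall_congr' fun i => ?_
    rw [rep_extS]
    rfl
  · -- option (ii)
    have hηcard : Nat.card (Option (Fin M)) = M + 1 := by simp
    set B : (κ' → Option α) → Set (Option (Fin M) → Option α) :=
      fun z => {s | glue e (extS W s) z ∈ A} with hBdef
    set D : (κ' → Option α) → α → Set (Option (Fin M) → Option α) :=
      fun z i => {s | glue e (inc (W (rep i s))) z ∈ A} with hDdef
    have hDins : ∀ z i, Ins i (D z i) := by
      intro z i w
      simp only [hDdef, Set.mem_ofPred_eq, rep_inc]
    have hBline : ∀ z, ¬ ∃ l : Line (Option α) (Option (Fin M)), ∀ x, l x ∈ B z := by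
      rintro z ⟨l, hl⟩
      exact hnoL z ⟨lineS (extS W) l, fun x => by rw [lineS_apply]; exact hl x⟩
    have hBle : ∀ z, dn (B z) ≤ δ + γ := by
      intro z
      by_contra hcon
      push Not at hcon
      exact hBline z (hn1 (Option (Fin M)) (by rw [hηcard]; omega) _ hcon.le)
    have hBav : δ - γ ≤ av (fun z => dn (B z)) := by
      have h1 : av (fun z => dn (B z))
          = av (fun s : Option (Fin M) → Option α => dn {z | glue e (extS W s) z ∈ A}) := by
        simp only [dn]
        rw [av_comm]
        rfl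
      rw [h1]
      exact le_av_of_le fun s => hsec_ge _
    have hDav : 2 * θ ≤ av (fun z => dn (⋂ i, D z i)) := by
      have h1 : av (fun z => dn (⋂ i, D z i))
          = av (fun s : Option (Fin M) → Option α =>
            dn {z : κ' → Option α | ∀ i, glue e (inc (W (rep i s))) z ∈ A}) := by
        simp only [dn]
        rw [av_comm]
        congr 1
        funext s
        congr 1
        funext z
        by_cases hz : ∀ i, glue e (inc (W (rep i s))) z ∈ A
        · rw [Set.indicator_of_mem (by simpa [hDdef] using hz), Set.indicator_of_mem (by simpa using hz)]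
        · rw [Set.indicator_of_notMem (by simpa [hDdef] using hz),
            Set.indicator_of_notMem (by simpa using hz)]
      rw [h1]
      have h2 : ∀ s : Option (Fin M) → Option α,
          θ1 * {w : Option (Fin M) → Option α | w none = none}.indicator (fun _ => (1 : ℝ)) s
            ≤ dn {z : κ' → Option α | ∀ i, glue e (inc (W (rep i s))) z ∈ A} := by
        intro s
        by_cases hs : s none = none
        · rw [Set.indicator_of_mem (by exact hs), mul_one]
          have h3 := hW s hs
          refine h3.trans (le_of_eq ?_)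
          congr 1
          ext z
          simp only [Set.mem_ofPred_eq]
          refine forall_congr' fun i => ?_
          rw [rep_extS]
        · rw [Set.indicator_of_notMem (by exact hs), mul_zero]
          exact dn_nonneg _
      have h3 := av_mono h2
      rw [av_const_mul] at h3
      have h4 : av ({w : Option (Fin M) → Option α | w none = none}.indicator (fun _ => (1 : ℝ)))
          = 1 / K := dn_firststar M
      rw [h4] at h3
      refine le_trans (le_of_eq ?_) h3
      rw [hθ]
      field_simp
    obtain ⟨z, hz1, hz2⟩ := choose_z hγpos hθpos hBle hBav (fun z => dn_le_one _) hDav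
    refine final_contra hδ hθpos hθle hγ (B z) (D z) (hDins z) ?_ hz1 hz2 ?_
    · intro E hE
      refine hnP (Option (Fin M)) (by rw [hηcard]; omega) E _ hE ?_ ?_
      · intro w
        have h1 : (B z).indicator (fun _ => (1 : ℝ)) w ≤ 1 :=
          Set.indicator_le_self' (fun _ _ => zero_le_one) w
        linarith
      · intro V
        have h1 : av (fun x => (B z).indicator (fun _ => (1 : ℝ)) (V x) - (δ + γ))
            = dn {x | V x ∈ B z} - (δ + γ) := by
          rw [av_sub, av_const]
          rfl
        rw [h1]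
        by_contra hcon
        push Not at hcon
        obtain ⟨l, hl⟩ := hn1 (Fin n1) (by simp) {x | V x ∈ B z} (by linarith)
        exact hBline z ⟨lineS V l, fun x => by rw [lineS_apply]; exact hl x⟩
    · have h1 : B z ∩ ⋂ i, D z i ⊆ {w : Option (Fin M) → Option α | ∀ j, w j ≠ none} := by
        rintro w ⟨hwB, hwD⟩ j hj
        obtain ⟨p, hp⟩ := (extS W).proper j
        refine hnoL z ?_
        obtain ⟨l, hl⟩ := line_of_star {t | glue e t z ∈ A} (extS W w)
          ⟨p, by rw [Subspace.apply_inr hp, hj]⟩ hwB (fun i => by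
            have h2 := Set.mem_iInter.mp hwD i
            simp only [hDdef, Set.mem_ofPred_eq] at h2
            simp only [Set.mem_ofPred_eq, rep_extS]
            exact h2)
        exact ⟨l, hl⟩
      refine (dn_mono h1).trans ?_
      rw [dn_nostar, hηcard]
      exact hnQ (M + 1) (by omega)

end Pool.Agent.Helper52.SZ
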