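import Mathlib

/-!
Project SZ (density Hales-Jewett theorem and Szemeredi's theorem).
Definitions: averages and densities on finite types, words with stars, insensitive sets,
subspaces over two alphabets.
-/

namespace Pool.Agent.Helper52.SZ

open Combinatorics

/-! ### averages and densities -/

/-- the average of a real function on a finite type (no instances needed) -/
noncomputable def av {X : Type} (f : X → ℝ) : ℝ := (∑ᶠ x, f x) / (Nat.card X : ℝ)

/-- the density of a set in a finite type -/
noncomputable def dn {X : Type} (A : Set X) : ℝ := av (A.indicator fun _ => (1 : ℝ))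

section av

variable {X Y : Type}

theorem av_eq_sum [Fintype X] (f : X → ℝ) : av f = (∑ x, f x) / (Fintype.card X : ℝ) := by
  rw [av, finsum_eq_sum_of_fintype, Nat.card_eq_fintype_card]

theorem av_add [Finite X] (f g : X → ℝ) : av (fun x => f x + g x) = av f + av g := by
  have := Fintype.ofFinite X
  rw [av_eq_sum, av_eq_sum, av_eq_sum, Finset.sum_add_distrib, add_div]

theorem av_sub [Finite X] (f g : X → ℝ) : av (fun x => f x - g x) = av f - av g := by
  have := Fintype.ofFinite X
  rw [av_eq_sum, av_eq_sum, av_eq_sum, Finset.sum_sub_distrib, sub_div]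

theorem av_neg [Finite X] (f : X → ℝ) : av (fun x => - f x) = - av f := by
  have := Fintype.ofFinite X
  rw [av_eq_sum, av_eq_sum, Finset.sum_neg_distrib, neg_div]

theorem av_const_mul [Finite X] (c : ℝ) (f : X → ℝ) : av (fun x => c * f x) = c * av f := by
  have := Fintype.ofFinite X
  rw [av_eq_sum, av_eq_sum, ← Finset.mul_sum, mul_div_assoc]

theorem av_const [Finite X] [Nonempty X] (c : ℝ) : av (fun _ : X => c) = c := by
  have := Fintype.ofFinite X
  rw [av_eq_sum]
  have : (Fintype.card X : ℝ) ≠ 0 := by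
    exact_mod_cast Fintype.card_ne_zero
  simp [Finset.sum_const]

theorem av_zero : av (fun _ : X => (0 : ℝ)) = 0 := by
  simp [av]

theorem av_mono [Finite X] {f g : X → ℝ} (h : ∀ x, f x ≤ g x) : av f ≤ av g := by
  have := Fintype.ofFinite X
  rw [av_eq_sum, av_eq_sum]
  exact div_le_div_of_nonneg_right (Finset.sum_le_sum fun x _ => h x) (by positivity)

theorem av_nonneg [Finite X] {f : X → ℝ} (h : ∀ x, 0 ≤ f x) : 0 ≤ av f := by
  have := av_mono (f := fun _ : X => (0 : ℝ)) (g := f) h
  rwa [av_zero] at this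

theorem av_le_of_le [Finite X] [Nonempty X] {f : X → ℝ} {c : ℝ} (h : ∀ x, f x ≤ c) :
    av f ≤ c := by
  have := av_mono (g := fun _ : X => c) h
  rwa [av_const] at this

theorem le_av_of_le [Finite X] [Nonempty X] {f : X → ℝ} {c : ℝ} (h : ∀ x, c ≤ f x) :
    c ≤ av f := by
  have := av_mono (f := fun _ : X => c) h
  rwa [av_const] at this

theorem av_equiv (e : X ≃ Y) (f : Y → ℝ) : av (fun x => f (e x)) = av f := by
  rw [av, av, Nat.card_congr e]
  congr 1
  exact finsum_comp_equiv e

/-- averages over a product are iterated averages -/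
theorem av_prod [Finite X] [Finite Y] (f : X × Y → ℝ) :
    av f = av (fun x => av (fun y => f (x, y))) := by
  have := Fintype.ofFinite X
  have := Fintype.ofFinite Y
  rw [av_eq_sum, av_eq_sum, Fintype.sum_prod_type, Fintype.card_prod]
  have : ∀ x, av (fun y => f (x, y)) = (∑ y, f (x, y)) / (Fintype.card Y : ℝ) :=
    fun x => av_eq_sum _
  simp_rw [this]
  rw [← Finset.sum_div, div_div, mul_comm (Fintype.card Y : ℝ)]
  push_cast
  rfl

theorem av_comm [Finite X] [Finite Y] (f : X → Y → ℝ) :
    av (fun x => av (fun y => f x y)) = av (fun y => av (fun x => f x y)) := by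
  rw [← av_prod (fun p : X × Y => f p.1 p.2), ← av_prod (fun p : Y × X => f p.2 p.1),
    ← av_equiv (Equiv.prodComm X Y)]
  rfl

theorem exists_le_av [Finite X] [Nonempty X] (f : X → ℝ) : ∃ x, av f ≤ f x := by
  by_contra h
  push Not at h
  have := Fintype.ofFinite X
  have h1 : ∑ x, f x < ∑ _x : X, av f :=
    Finset.sum_lt_sum_of_nonempty Finset.univ_nonempty fun x _ => h x
  rw [Finset.sum_const, Finset.card_univ, nsmul_eq_mul] at h1
  have hc : (0 : ℝ) < Fintype.card X := by exact_mod_cast Fintype.card_pos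
  have h2 : (∑ x, f x) / (Fintype.card X : ℝ) < av f := by
    rw [div_lt_iff₀ hc, mul_comm]
    exact h1
  rw [← av_eq_sum] at h2
  exact lt_irrefl _ h2

theorem exists_av_le [Finite X] [Nonempty X] (f : X → ℝ) : ∃ x, f x ≤ av f := by
  obtain ⟨x, hx⟩ := exists_le_av (fun x => - f x)
  rw [av_neg] at hx
  exact ⟨x, by linarith⟩

end av

section dn

variable {X Y : Type}

theorem dn_eq [Finite X] (A : Set X) : dn A = (Nat.card A : ℝ) / (Nat.card X : ℝ) := by
  classical
  have := Fintype.ofFinite X
  rw [dn, av]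
  congr 1
  rw [finsum_eq_sum_of_fintype, Finset.sum_indicator_eq_sum_filter, Finset.sum_const, nsmul_one,
    Nat.card_eq_fintype_card, Fintype.card_subtype]

theorem dn_nonneg [Finite X] (A : Set X) : 0 ≤ dn A :=
  av_nonneg fun x => Set.indicator_nonneg (fun _ _ => zero_le_one) x

theorem dn_mono [Finite X] {A B : Set X} (h : A ⊆ B) : dn A ≤ dn B :=
  av_mono fun x => Set.indicator_le_indicator_of_subset h (fun _ => zero_le_one) x

theorem dn_le_one [Finite X] (A : Set X) : dn A ≤ 1 := by
  rcases isEmpty_or_nonempty X with h | h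
  · rw [dn, av]
    simp
  · refine av_le_of_le fun x => ?_
    by_cases hx : x ∈ A <;> simp [hx]

theorem dn_empty : dn (∅ : Set X) = 0 := by
  rw [dn]
  simp [av]

theorem dn_univ [Finite X] [Nonempty X] : dn (Set.univ : Set X) = 1 := by
  rw [dn]
  simp [av_const]

theorem dn_equiv (e : X ≃ Y) (A : Set Y) : dn {x | e x ∈ A} = dn A := by
  rw [dn, dn, ← av_equiv e]
  rfl

theorem dn_compl [Finite X] [Nonempty X] (A : Set X) : dn Aᶜ = 1 - dn A := by
  have h : dn Aᶜ = av (fun x => 1 - A.indicator (fun _ => (1 : ℝ)) x) := by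
    rw [dn]
    congr 1
    funext x
    by_cases hx : x ∈ A <;> simp [hx]
  rw [h, av_sub, av_const]
  rfl

theorem nonempty_of_dn_pos {A : Set X} (h : 0 < dn A) : A.Nonempty := by
  by_contra hA
  rw [Set.not_nonempty_iff_eq_empty] at hA
  rw [hA, dn_empty] at h
  exact lt_irrefl _ h

/-- Markov: if f ≤ 1 has average at least 2c then f is at least c on a set of density c -/
theorem dn_ge_of_av_ge [Finite X] [Nonempty X] {f : X → ℝ} {c : ℝ} (hc : 0 ≤ c)
    (hf : ∀ x, f x ≤ 1) (h : 2 * c ≤ av f) : c ≤ dn {x | c ≤ f x} := by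
  have h1 : ∀ x, f x ≤ {x | c ≤ f x}.indicator (fun _ => (1 : ℝ)) x + c := by
    intro x
    by_cases hx : c ≤ f x
    · rw [Set.indicator_of_mem (show x ∈ {x | c ≤ f x} from hx)]
      linarith [hf x]
    · rw [Set.indicator_of_notMem (show x ∉ {x | c ≤ f x} from hx)]
      linarith
  have h2 := av_mono h1
  rw [av_add, av_const] at h2
  have h3 : av ({x | c ≤ f x}.indicator fun _ => (1 : ℝ)) = dn {x | c ≤ f x} := rfl
  rw [h3] at h2
  linarith

/-- union bound -/
theorem dn_union_le [Finite X] (A B : Set X) : dn (A ∪ B) ≤ dn A + dn B := by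
  rw [dn, dn, dn, ← av_add]
  refine av_mono fun x => ?_
  by_cases h1 : x ∈ A <;> by_cases h2 : x ∈ B <;> simp [h1, h2]

end dn

/-! ### words -/

section words

variable {ι κ κ' η ζ α β : Type}

/-- replace the stars (the letter none) of a word by the letter i -/
def rep (i : α) (w : ι → Option α) : ι → α := fun j => (w j).getD i

/-- words over α are words over Option α -/
def inc (w : ι → α) : ι → Option α := fun j => some (w j)

/-- a word over κ and a word over κ' give a word over ι ≃ κ ⊕ κ' -/
def glue (e : ι ≃ κ ⊕ κ') (u : κ → β) (v : κ' → β) : ι → β := fun j => Sum.elim u v (e j)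

theorem rep_inc (i : α) (w : ι → α) : rep i (inc w) = w := rfl

theorem rep_glue (i : α) (e : ι ≃ κ ⊕ κ') (u : κ → Option α) (v : κ' → Option α) :
    rep i (glue e u v) = glue e (rep i u) (rep i v) := by
  funext j
  simp only [rep, glue]
  cases e j <;> rfl

theorem inc_glue (e : ι ≃ κ ⊕ κ') (u : κ → α) (v : κ' → α) :
    inc (glue e u v) = glue e (inc u) (inc v) := by
  funext j
  simp only [inc, glue]
  cases e j <;> rfl

/-- gluing is a bijection -/
def glueEquiv (e : ι ≃ κ ⊕ κ') (β : Type) : (κ → β) × (κ' → β) ≃ (ι → β) :=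
  (Equiv.sumArrowEquivProdArrow κ κ' β).symm.trans (Equiv.arrowCongr e.symm (Equiv.refl β))

theorem glueEquiv_apply (e : ι ≃ κ ⊕ κ') (u : κ → β) (v : κ' → β) :
    glueEquiv e β (u, v) = glue e u v := by
  funext j
  simp [glueEquiv, glue, Equiv.sumArrowEquivProdArrow]

theorem exists_glue (e : ι ≃ κ ⊕ κ') (w : ι → β) : ∃ u v, w = glue e u v := by
  obtain ⟨⟨u, v⟩, h⟩ := (glueEquiv e β).surjective w
  exact ⟨u, v, by rw [← h, glueEquiv_apply]⟩

/-- average over all words = average over the second block of the averages over the first -/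
theorem av_glue [Finite κ] [Finite κ'] [Finite β] (e : ι ≃ κ ⊕ κ') (f : (ι → β) → ℝ) :
    av f = av (fun v => av (fun u => f (glue e u v))) := by
  rw [av_comm, ← av_equiv (glueEquiv e β), av_prod]
  simp_rw [glueEquiv_apply]

theorem av_glue' [Finite κ] [Finite κ'] [Finite β] (e : ι ≃ κ ⊕ κ') (f : (ι → β) → ℝ) :
    av f = av (fun u => av (fun v => f (glue e u v))) := by
  rw [av_comm, ← av_glue]

theorem dn_glue [Finite κ] [Finite κ'] [Finite β] (e : ι ≃ κ ⊕ κ') (A : Set (ι → β)) :
    dn A = av (fun v => dn {u | glue e u v ∈ A}) := by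
  rw [dn, av_glue e]
  rfl

theorem dn_glue' [Finite κ] [Finite κ'] [Finite β] (e : ι ≃ κ ⊕ κ') (A : Set (ι → β)) :
    dn A = av (fun u => dn {v | glue e u v ∈ A}) := by
  rw [dn, av_glue' e]
  rfl

/-- a finite type with at least n elements splits off a block of size n -/
theorem exists_split [Finite ι] {n : ℕ} (h : n ≤ Nat.card ι) :
    ∃ (κ' : Type) (_ : Finite κ'), Nonempty (ι ≃ Fin n ⊕ κ') ∧ Nat.card ι = n + Nat.card κ' := by
  refine ⟨Fin (Nat.card ι - n), inferInstance, ?_, ?_⟩
  · refine ⟨(Finite.equivFin ι).trans ((finCongr (by omega)).trans finSumFinEquiv.symm)⟩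
  · simp
    omega

/-- E does not distinguish the letters i and star -/
def Ins (i : α) (E : Set (ι → Option α)) : Prop :=
  ∀ w, w ∈ E ↔ inc (rep i w) ∈ E

end words

/-! ### subspaces -/

section subspaces

variable {ι κ κ' η ζ α β : Type}

/-- a subspace over the alphabet α, read over the alphabet Option α -/
def extS (V : Subspace η α ι) : Subspace η (Option α) ι where
  idxFun j := (V.idxFun j).map some id
  proper e := by
    obtain ⟨j, hj⟩ := V.proper e
    exact ⟨j, by simp [hj]⟩

theorem rep_extS (i : α) (V : Subspace η α ι) (s : η → Option α) :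
    rep i (extS V s) = V (rep i s) := by
  funext j
  simp only [rep, Subspace.coe_apply, extS]
  cases V.idxFun j <;> rfl

theorem extS_inc (V : Subspace η α ι) (s : η → α) : extS V (inc s) = inc (V s) := by
  funext j
  simp only [inc, Subspace.coe_apply, extS]
  cases V.idxFun j <;> rfl

/-- composition of subspaces -/
def compS (V : Subspace η β ι) (U : Subspace ζ β η) : Subspace ζ β ι where
  idxFun j := (V.idxFun j).elim Sum.inl U.idxFun
  proper e := by
    obtain ⟨d, hd⟩ := U.proper e
    obtain ⟨j, hj⟩ := V.proper d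
    exact ⟨j, by simp [hj, hd]⟩

@[simp] theorem compS_apply (V : Subspace η β ι) (U : Subspace ζ β η) (x : ζ → β) :
    compS V U x = V (U x) := by
  funext j
  simp only [Subspace.coe_apply, compS]
  cases V.idxFun j <;> rfl

theorem extS_compS (V : Subspace η α ι) (U : Subspace ζ α η) (s : ζ → Option α) :
    extS (compS V U) s = extS V (extS U s) := by
  funext j
  simp only [Subspace.coe_apply, extS, compS]
  cases V.idxFun j with
  | inl a => rfl
  | inr d => rfl

/-- a subspace of the first block, constant on the second block -/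
def subL (e : ι ≃ κ ⊕ κ') (V : Subspace η β κ) (v : κ' → β) : Subspace η β ι where
  idxFun j := Sum.elim V.idxFun (fun p => Sum.inl (v p)) (e j)
  proper d := by
    obtain ⟨p, hp⟩ := V.proper d
    exact ⟨e.symm (Sum.inl p), by simp [hp]⟩

@[simp] theorem subL_apply (e : ι ≃ κ ⊕ κ') (V : Subspace η β κ) (v : κ' → β) (x : η → β) :
    subL e V v x = glue e (V x) v := by
  funext j
  simp only [Subspace.coe_apply, subL, glue]
  cases e j <;> rfl

/-- a subspace of the second block, constant on the first block -/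
def subR (e : ι ≃ κ ⊕ κ') (u : κ → β) (V : Subspace η β κ') : Subspace η β ι where
  idxFun j := Sum.elim (fun p => Sum.inl (u p)) V.idxFun (e j)
  proper d := by
    obtain ⟨p, hp⟩ := V.proper d
    exact ⟨e.symm (Sum.inr p), by simp [hp]⟩

@[simp] theorem subR_apply (e : ι ≃ κ ⊕ κ') (u : κ → β) (V : Subspace η β κ') (x : η → β) :
    subR e u V x = glue e u (V x) := by
  funext j
  simp only [Subspace.coe_apply, subR, glue]
  cases e j <;> rfl

/-- a line of the first block, constant on the second block -/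
def lineL (e : ι ≃ κ ⊕ κ') (l : Line β κ) (v : κ' → β) : Line β ι where
  idxFun j := Sum.elim l.idxFun (fun p => some (v p)) (e j)
  proper := by
    obtain ⟨p, hp⟩ := l.proper
    exact ⟨e.symm (Sum.inl p), by simp [hp]⟩

theorem lineL_apply (e : ι ≃ κ ⊕ κ') (l : Line β κ) (v : κ' → β) (x : β) :
    lineL e l v x = glue e (l x) v := by
  funext j
  simp only [Line.coe_apply, lineL, glue]
  cases e j <;> rfl

/-- a line of the second block, constant on the first block -/
def lineR (e : ι ≃ κ ⊕ κ') (u : κ → β) (l : Line β κ') : Line β ι where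
  idxFun j := Sum.elim (fun p => some (u p)) l.idxFun (e j)
  proper := by
    obtain ⟨p, hp⟩ := l.proper
    exact ⟨e.symm (Sum.inr p), by simp [hp]⟩

theorem lineR_apply (e : ι ≃ κ ⊕ κ') (u : κ → β) (l : Line β κ') (x : β) :
    lineR e u l x = glue e u (l x) := by
  funext j
  simp only [Line.coe_apply, lineR, glue]
  cases e j <;> rfl

/-- the image of a line under a subspace -/
def lineS (V : Subspace η β ι) (l : Line β η) : Line β ι where
  idxFun j := (V.idxFun j).elim some l.idxFun
  proper := by
    obtain ⟨d, hd⟩ := l.proper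
    obtain ⟨j, hj⟩ := V.proper d
    exact ⟨j, by simp [hj, hd]⟩

theorem lineS_apply (V : Subspace η β ι) (l : Line β η) (x : β) :
    lineS V l x = V (l x) := by
  funext j
  simp only [Line.coe_apply, Subspace.coe_apply, lineS]
  cases V.idxFun j <;> rfl

end subspaces

/-! ### the statements -/

/-- sets of density at least δ of words over β contain a line in high dimension -/
def Good (β : Type) (δ : ℝ) : Prop :=
  ∃ n0 : ℕ, ∀ (ι : Type) [Finite ι], n0 ≤ Nat.card ι → ∀ A : Set (ι → β), δ ≤ dn A →
    ∃ l : Line β ι, ∀ x, l x ∈ A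

/-- the density Hales-Jewett theorem for the alphabet β -/
def DHJ (β : Type) : Prop := ∀ δ : ℝ, 0 < δ → Good β δ

/-- the multidimensional density Hales-Jewett theorem for the alphabet β -/
def MDHJ (β : Type) : Prop :=
  ∀ (d : ℕ) (δ : ℝ), 0 < δ → ∃ n0 : ℕ, ∀ (ι : Type) [Finite ι], n0 ≤ Nat.card ι →
    ∀ A : Set (ι → β), δ ≤ dn A → ∃ V : Subspace (Fin d) β ι, ∀ x, V x ∈ A

/-- f has non-positive average on all d-dimensional subspaces -/
def Ok {α ι : Type} (d : ℕ) (f : (ι → Option α) → ℝ) : Prop :=
  ∀ V : Subspace (Fin d) (Option α) ι, av (fun x => f (V x)) ≤ 0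

theorem Good.mono {β : Type} {δ δ' : ℝ} (h : Good β δ) (hδ : δ ≤ δ') : Good β δ' := by
  obtain ⟨n0, h0⟩ := h
  exact ⟨n0, fun ι _ hι A hA => h0 ι hι A (hδ.trans hA)⟩

theorem good_of_one_lt {β : Type} {δ : ℝ} [Finite β] (h : 1 < δ) : Good β δ :=
  ⟨0, fun _ _ _ A hA => absurd (hA.trans (dn_le_one A)) (not_le.mpr h)⟩

end Pool.Agent.Helper52.SZ
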